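import Mathlib

namespace Pool.Agent.Results.MP_ca7dc8_pr.Lonely

open Finset

/-- position after the steps `w` of a nearest-neighbour walk on `ℤ^d` started at the origin -/
def pos {d t : ℕ} (w : Fin t → Fin d × Bool) : Fin d → ℤ :=
  ∑ s, Pi.single (w s).1 (if (w s).2 then 1 else -1)

/-- probability that some walker among `n` independent ones is lonely at time `t` -/
noncomputable def p (n d t : ℕ) : ℝ :=
  (Nat.card {ω : Fin n → Fin t → Fin d × Bool // ∃ i, ∀ j, j ≠ i → pos (ω j) ≠ pos (ω i)} : ℝ) /
    (2 * d) ^ (n * t)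

section
variable {W : Type} [Fintype W] [DecidableEq W] {n : ℕ}

def E (F : Finset W) (i : Fin n) : Finset (Fin n → W) :=
  Fintype.piFinset fun j => if j = i then F else Fᶜ

theorem mem_E {F : Finset W} {i : Fin n} {ω : Fin n → W} :
    ω ∈ E F i ↔ ω i ∈ F ∧ ∀ j, j ≠ i → ω j ∉ F := by
  simp only [E, Fintype.mem_piFinset]
  constructor
  · intro h
    refine ⟨by simpa using h i, fun j hj => by simpa [hj] using h j⟩
  · rintro ⟨h1, h2⟩ j
    split_ifs with hj
    · exact hj ▸ h1
    · simpa using h2 j hj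

theorem card_E (F : Finset W) (i : Fin n) :
    (E F i).card = F.card * (Fintype.card W - F.card) ^ (n - 1) := by
  rw [E, Fintype.card_piFinset, ← mul_prod_erase univ _ (mem_univ i), if_pos rfl,
    prod_congr rfl (g := fun _ => Fintype.card W - F.card) fun j hj => by
      rw [if_neg (ne_of_mem_erase hj), card_compl]]
  simp

def A (F : Finset W) (n : ℕ) : Finset (Fin n → W) := univ.biUnion fun i => E F i

theorem card_A (F : Finset W) :
    (A F n).card = n * (F.card * (Fintype.card W - F.card) ^ (n - 1)) := by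
  rw [A, card_biUnion]
  · simp [card_E]
  · intro i _ j _ hij
    refine disjoint_left.2 fun ω h1 h2 => ?_
    exact (mem_E.1 h2).2 i hij (mem_E.1 h1).1

theorem card_AA (a b : W) (hab : a ≠ b) :
    (A {a} n ∩ A {b} n).card ≤ n * n * (Fintype.card W - 2) ^ (n - 2) := by
  have : A {a} n ∩ A {b} n ⊆ (univ : Finset (Fin n)).offDiag.biUnion fun q =>
      Fintype.piFinset fun j => if j = q.1 then {a} else if j = q.2 then {b} else {a, b}ᶜ := by
    intro ω h
    simp only [A, mem_inter, mem_biUnion, mem_univ, true_and, mem_E, mem_singleton] at h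
    obtain ⟨⟨i, h1, h2⟩, j, h3, h4⟩ := h
    simp only [mem_biUnion, mem_offDiag, mem_univ, true_and, Fintype.mem_piFinset]
    refine ⟨(i, j), fun e => hab (by rw [← h1, ← h3]; exact congrArg ω e), fun k => ?_⟩
    split_ifs with e1 e2
    · simp [e1, h1]
    · simp [e2, h3]
    · simp [h2 k e1, h4 k e2]
  refine (card_le_card this).trans (card_biUnion_le.trans ?_)
  refine (sum_le_card_nsmul _ _ ((Fintype.card W - 2) ^ (n - 2)) fun q hq => ?_).trans ?_
  · have hq' : q.2 ∈ univ.erase q.1 := mem_erase.2 ⟨(mem_offDiag.1 hq).2.2.symm, mem_univ _⟩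
    rw [Fintype.card_piFinset, ← mul_prod_erase univ _ (mem_univ q.1), if_pos rfl,
      ← mul_prod_erase _ _ hq', if_neg (ne_of_mem_erase hq'), if_pos rfl,
      prod_congr rfl (g := fun _ => Fintype.card W - 2) fun j hj => by
        rw [if_neg (ne_of_mem_erase (mem_of_mem_erase hj)), if_neg (ne_of_mem_erase hj),
          card_compl, card_pair hab]]
    rw [prod_const, card_erase_of_mem hq', card_erase_of_mem (mem_univ _)]
    simp [Nat.sub_sub]
  · rw [smul_eq_mul, offDiag_card]
    simp only [card_univ, Fintype.card_fin]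
    exact Nat.mul_le_mul_right _ (Nat.sub_le _ _)

end

def ups {t : ℕ} (w : Fin t → Fin 1 × Bool) : ℕ := (univ.filter fun s => (w s).2 = true).card

theorem pos_eq {t : ℕ} (w : Fin t → Fin 1 × Bool) : pos w = fun _ => 2 * (ups w : ℤ) - t := by
  funext a
  have : ∀ s, (Pi.single (w s).1 (if (w s).2 then 1 else -1) : Fin 1 → ℤ) a =
      2 * (if (w s).2 = true then 1 else 0) - 1 := fun s => by
    rw [Subsingleton.elim a (w s).1, Pi.single_eq_same]
    split_ifs <;> norm_num
  simp only [pos, Finset.sum_apply, this, sum_sub_distrib, ← mul_sum, ups, card_filter]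
  simp

theorem pos_iff {t : ℕ} (w v : Fin t → Fin 1 × Bool) : pos w = pos v ↔ ups w = ups v := by
  rw [pos_eq, pos_eq]
  constructor
  · intro h
    have := congrFun h 0
    omega
  · intro h
    rw [h]

def fib (t k : ℕ) : Finset (Fin t → Fin 1 × Bool) := univ.filter fun w => ups w = k

theorem card_fib (t k : ℕ) : (fib t k).card = t.choose k := by
  have : t.choose k = (powersetCard k (univ : Finset (Fin t))).card := by simp
  rw [this]
  refine card_bij' (fun w _ => univ.filter fun s => (w s).2 = true)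
    (fun S _ => fun s => (0, decide (s ∈ S))) (fun w hw => ?_) (fun S hS => ?_) (fun w _ => ?_)
    (fun S _ => ?_)
  · simpa [fib, ups] using hw
  · simpa [fib, ups] using hS
  · funext s
    exact Prod.ext (Subsingleton.elim _ _) (by simp)
  · simp

theorem p_eq (n t : ℕ) :
    p n 1 t = (((range (t + 1)).biUnion fun k => A (fib t k) n).card : ℝ) / 2 ^ (n * t) := by
  unfold p
  rw [Nat.subtype_card ((range (t + 1)).biUnion fun k => A (fib t k) n)]
  · norm_num
  · intro ω
    simp only [mem_biUnion, A, mem_E, mem_univ, true_and, fib, mem_filter, ne_eq, pos_iff,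
      mem_range]
    constructor
    · rintro ⟨k, _, i, h1, h2⟩
      exact ⟨i, fun j hj => h1 ▸ h2 j hj⟩
    · rintro ⟨i, h⟩
      refine ⟨_, ?_, i, rfl, h⟩
      have := card_filter_le (univ : Finset (Fin t)) fun s => (ω i s).2 = true
      simp only [card_univ, Fintype.card_fin] at this
      exact Nat.lt_succ_of_le this

theorem upper (n t : ℕ) : ((range (t + 1)).biUnion fun k => A (fib t k) n).card ≤
    ∑ k ∈ range (t + 1), n * (t.choose k * (2 ^ t - t.choose k) ^ (n - 1)) := by
  refine card_biUnion_le.trans (le_of_eq (sum_congr rfl fun k _ => ?_))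
  rw [card_A, card_fib]
  simp

theorem lower (n t : ℕ) (ht : 0 < t) : 2 * (n * (2 ^ t - 1) ^ (n - 1)) ≤
    ((range (t + 1)).biUnion fun k => A (fib t k) n).card + n * n * (2 ^ t - 2) ^ (n - 2) := by
  obtain ⟨a, ha⟩ := card_eq_one.1 ((card_fib t 0).trans (Nat.choose_zero_right t))
  obtain ⟨b, hb⟩ := card_eq_one.1 ((card_fib t t).trans (Nat.choose_self t))
  have hab : a ≠ b := by
    rintro rfl
    have h1 : a ∈ fib t 0 := ha ▸ mem_singleton_self a
    have h2 : a ∈ fib t t := hb ▸ mem_singleton_self a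
    simp only [fib, mem_filter] at h1 h2
    omega
  have h1 := card_union_add_card_inter (A {a} n) (A {b} n)
  have h2 := card_AA (n := n) a b hab
  have h3 : A {a} n ∪ A {b} n ⊆ (range (t + 1)).biUnion fun k => A (fib t k) n := by
    rw [← ha, ← hb]
    exact union_subset (subset_biUnion_of_mem (fun k => A (fib t k) n) (by simp))
      (subset_biUnion_of_mem (fun k => A (fib t k) n) (by simp))
  have h4 := card_le_card h3
  rw [card_A, card_A] at h1
  have hc : Fintype.card (Fin t → Fin 1 × Bool) = 2 ^ t := by simp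
  rw [hc] at h1 h2
  simp only [card_singleton, one_mul] at h1
  omega

theorem num : (∑ k ∈ range (14 + 1), 7000 * (Nat.choose 14 k * (2 ^ 14 - Nat.choose 14 k) ^
    (7000 - 1))) + 7000 * 7000 * (2 ^ 13 - 2) ^ (7000 - 2) * 2 ^ 7000 <
    2 * (7000 * (2 ^ 13 - 1) ^ (7000 - 1)) * 2 ^ 7000 := by
  decide +kernel

theorem result : ∃ n t : ℕ, 1 ≤ n ∧ p n 1 (t + 1) < p n 1 t := by
  refine ⟨7000, 13, by norm_num, ?_⟩
  rw [p_eq, p_eq]
  have h1 := upper 7000 14
  have h2 := Nat.mul_le_mul_right (2 ^ 7000) (lower 7000 13 (by norm_num))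
  have h3 := num
  generalize ((range (14 + 1)).biUnion fun k => A (fib 14 k) 7000).card = x at *
  generalize ((range (13 + 1)).biUnion fun k => A (fib 13 k) 7000).card = y at *
  have h4 : x < y * 2 ^ 7000 := by
    rw [add_mul] at h2
    exact lt_of_add_lt_add_right ((Nat.add_le_add_right h1 _).trans_lt (h3.trans_le h2))
  rw [show 7000 * (13 + 1) = 7000 + 7000 * 13 by norm_num, pow_add, ← div_div]
  refine div_lt_div_of_pos_right ?_ (by positivity)
  rw [div_lt_iff₀ (by positivity)]
  exact_mod_cast h4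

end Pool.Agent.Results.MP_ca7dc8_pr.Lonely
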